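import Mathlib

/-!
# CY-1b: an 11-cycle in the Galois group and multiplicative relations between the roots
-/

namespace Pool.Agent.Helper65.CY

open Polynomial

theorem exists_perm {K M : Type*} [Field K] [CharZero K] [Field M] [Algebra K M]
    (χ : Polynomial K) (hχ : Irreducible χ) (hdeg : χ.natDegree = 11) (μ : Fin 11 → M)
    (hμ : Function.Injective μ) (hroot : ∀ i, Polynomial.aeval (μ i) χ = 0) :
    ∃ ρ : Equiv.Perm (Fin 11), orderOf ρ = 11 ∧ ∀ a b : Fin 11 → ℕ,
      ∏ i, μ i ^ a i = ∏ i, μ i ^ b i → ∏ i, μ (ρ i) ^ a i = ∏ i, μ (ρ i) ^ b i := by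
  classical
  have hne : χ ≠ 0 := hχ.ne_zero
  set p : M[X] := χ.map (algebraMap K M) with hp
  have hp0 : p ≠ 0 := Polynomial.map_ne_zero hne
  have hpd : p.natDegree = 11 := by rw [hp, Polynomial.natDegree_map, hdeg]
  -- the roots in `M`
  have hmem : ∀ i, μ i ∈ p.roots.toFinset := by
    intro i
    rw [Multiset.mem_toFinset, Polynomial.mem_roots hp0, Polynomial.IsRoot.def, hp,
      Polynomial.eval_map_algebraMap]
    exact hroot i
  have himg : Finset.univ.image μ ⊆ p.roots.toFinset := by
    intro z hz
    obtain ⟨i, _, rfl⟩ := Finset.mem_image.mp hz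
    exact hmem i
  have hcard : (Finset.univ.image μ).card = 11 := by
    rw [Finset.card_image_of_injective _ hμ, Finset.card_univ, Fintype.card_fin]
  have hle1 : p.roots.toFinset.card ≤ p.roots.card := Multiset.toFinset_card_le _
  have hle2 : p.roots.card ≤ 11 := hpd ▸ Polynomial.card_roots' p
  have hle3 := Finset.card_le_card himg
  have hrc : p.roots.card = p.natDegree := by omega
  have heq : Finset.univ.image μ = p.roots.toFinset :=
    Finset.eq_of_subset_of_card_le himg (by omega)
  have hsplit : Splits p := Polynomial.splits_iff_card_roots.mpr hrc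
  have hall : ∀ z : M, Polynomial.aeval z χ = 0 → ∃ i, μ i = z := by
    intro z hz
    have : z ∈ p.roots.toFinset := by
      rw [Multiset.mem_toFinset, Polynomial.mem_roots hp0, Polynomial.IsRoot.def, hp,
        Polynomial.eval_map_algebraMap]
      exact hz
    rw [← heq] at this
    obtain ⟨i, _, h⟩ := Finset.mem_image.mp this
    exact ⟨i, h⟩
  -- the splitting field
  let f : χ.SplittingField →ₐ[K] M := Polynomial.SplittingField.lift χ hsplit
  have hf : Function.Injective f := f.toRingHom.injective
  have hsepE := Polynomial.card_rootSet_eq_natDegree (K := χ.SplittingField) hχ.separable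
    (Polynomial.SplittingField.splits χ)
  have hrE : ∀ e : χ.SplittingField, Polynomial.aeval e χ = 0 ↔ Polynomial.aeval (f e) χ = 0 := by
    intro e
    rw [Polynomial.aeval_algHom_apply]
    exact ⟨fun h => by rw [h, map_zero], fun h => hf (by rw [h, map_zero])⟩
  have hmemE : ∀ e : χ.SplittingField, e ∈ χ.rootSet χ.SplittingField ↔
      Polynomial.aeval e χ = 0 := fun e => Polynomial.mem_rootSet.trans (and_iff_right hne)
  -- the map from roots in E to indices
  have hidx : ∀ e : χ.rootSet χ.SplittingField, ∃ i, μ i = f e := fun e =>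
    hall _ ((hrE e).mp ((hmemE e).mp e.2))
  choose g hg using hidx
  have hginj : Function.Injective g := by
    intro x y hxy
    have : f x = f y := by rw [← hg x, ← hg y, hxy]
    exact Subtype.ext (hf this)
  have hgbij : Function.Bijective g := by
    rw [Fintype.bijective_iff_injective_and_card]
    exact ⟨hginj, by rw [hsepE, hdeg, Fintype.card_fin]⟩
  let G : χ.rootSet χ.SplittingField ≃ Fin 11 := Equiv.ofBijective g hgbij
  let ν : Fin 11 → χ.SplittingField := fun i => (G.symm i : χ.SplittingField)
  have hν : ∀ i, f (ν i) = μ i := by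
    intro i
    have h1 := hg (G.symm i)
    have h2 : g (G.symm i) = i := G.apply_symm_apply i
    rw [h2] at h1
    exact h1.symm
  have hνinj : Function.Injective ν := by
    intro i j hij
    exact hμ (by rw [← hν i, ← hν j, hij])
  have hνroot : ∀ i, Polynomial.aeval (ν i) χ = 0 := fun i => (hmemE _).mp (G.symm i).2
  have hνall : ∀ e : χ.SplittingField, Polynomial.aeval e χ = 0 → ∃ i, ν i = e := by
    intro e he
    refine ⟨G ⟨e, (hmemE e).mpr he⟩, ?_⟩
    show ((G.symm (G ⟨e, (hmemE e).mpr he⟩) : χ.rootSet χ.SplittingField) : χ.SplittingField) = e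
    rw [G.symm_apply_apply]
  -- an element of order 11
  have hdvd : 11 ∣ Nat.card χ.Gal := by
    have h := Polynomial.Gal.prime_degree_dvd_card hχ (by rw [hdeg]; norm_num)
    rwa [hdeg] at h
  have : Fact (Nat.Prime 11) := ⟨by norm_num⟩
  obtain ⟨σ, hσ⟩ := exists_prime_orderOf_dvd_card' 11 hdvd
  have hσroot : ∀ i, Polynomial.aeval (σ (ν i)) χ = 0 := by
    intro i
    have h : Polynomial.aeval (σ (ν i)) χ = σ (Polynomial.aeval (ν i) χ) :=
      Polynomial.aeval_algHom_apply (AlgEquiv.toAlgHom σ) (ν i) χ
    rw [h, hνroot i, map_zero]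
  choose r hr using fun i => hνall _ (hσroot i)
  have hrinj : Function.Injective r := by
    intro i j hij
    have : σ (ν i) = σ (ν j) := by rw [← hr i, ← hr j, hij]
    exact hνinj (σ.injective this)
  let ρ : Equiv.Perm (Fin 11) := Equiv.ofBijective r (Finite.injective_iff_bijective.mp hrinj)
  have hρ : ∀ i, ν (ρ i) = σ (ν i) := hr
  have hpow : ∀ (n : ℕ) (i : Fin 11), ν ((ρ ^ n) i) = (σ ^ n) (ν i) := by
    intro n
    induction n with
    | zero => intro i; rfl
    | succ n ih =>
      intro i
      rw [pow_succ', pow_succ', Equiv.Perm.mul_apply, hρ, ih]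
      rfl
  refine ⟨ρ, ?_, ?_⟩
  · apply orderOf_eq_prime
    · apply Equiv.ext
      intro i
      apply hνinj
      have h11 : σ ^ 11 = 1 := by rw [← hσ, pow_orderOf_eq_one]
      rw [hpow, h11]
      rfl
    · intro h1
      have hσ1 : σ = 1 := by
        apply Polynomial.Gal.ext
        intro x hx
        obtain ⟨i, hi⟩ := hνall x ((hmemE x).mp hx)
        rw [← hi, ← hρ i, h1]
        rfl
      rw [hσ1, orderOf_one] at hσ
      omega
  · intro a b hab
    have h1 : ∏ i, ν i ^ a i = ∏ i, ν i ^ b i := by
      apply hf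
      rw [map_prod, map_prod]
      simp only [map_pow, hν]
      exact hab
    have h2 := congrArg (fun z => f (σ z)) h1
    simp only [map_prod, map_pow] at h2
    have h3 : ∀ i, f (σ (ν i)) = μ (ρ i) := fun i => by rw [← hρ i, hν]
    simpa only [h3] using h2

end Pool.Agent.Helper65.CY
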